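import Pool.Agent.K1H77.NC.Pos

/-!
# The preimage of the non-conical points can have positive Hausdorff dimension

A disproof of Q1 (i.e. a proof of its negated form): an action of the free group `F = ⟨a, b, c⟩`.

Definitions: `Pool.Agent.H322R3.HypDefs` (word metric, hyperbolicity, Gromov boundary `Boundary`,
action `bsmul` on it, `IsConvergenceAction`), `Pool.Agent.R639.CT.Defs` (`IsVisual`, `IsTree`,
`IsGeometric`, `hausdorffDim`, `basis`), `Pool.Agent.K1H77.NC.Bd` (`Converges`, `limitSet`,
`IsConicalPt`), `Pool.Agent.K1H77.NC.Vis` (`WordSp`: `F` with its word metric).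

Idea. `Z` is the quotient of `∂F` in which two ends are identified if the line of the Cayley tree
which joins them has no edge labelled `c`; it is realised in `{0, 1} ^ F` by sending an end `ξ` to
the set of the `v ∈ F` such that the ray from `v` to `ξ` starts with `c`. The action of `F` on `∂F`,
hence on `Z`, is a convergence action. The ends of `⟨a, b⟩` have the same image, which is a limit
point and is not conical since it has two preimages. The ends given by the positive words in `a, b`
form a set of positive dimension, which a Hölder map sends onto `[0, 1]`.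
-/

set_option autoImplicit false

namespace Pool.Agent.Results.MP_9c739d_al.NonConicalPositiveDim

open Pool.Agent.H322R3.Hyp Pool.Agent.R639.CT Pool.Agent.K1H77.NC

/-- There is a non-elementary convergence action of the free group `F` of rank `3` (which is
word-hyperbolic) on a compact metrizable space `Z`, with a continuous equivariant map
`f : ∂F → Z` (Cannon-Thurston map), such that the set of the `p ∈ ∂F` for which `f p` is a limit
point which is not conical has positive Hausdorff dimension for every visual metric `m` on `∂F`,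
with any parameter `a > 1`: for those defined by the word metric (i.e. by the Cayley tree of `F`),
which exist, and for those defined by a geometric action of `F` on an `ℝ`-tree `X`. -/
theorem result : IsHyperbolic (basis 3) ∧
    ∃ (Z : Type) (_ : TopologicalSpace Z) (_ : CompactSpace Z)
      (_ : TopologicalSpace.MetrizableSpace Z) (_ : MulAction (FreeGroup (Fin 3)) Z)
      (_ : ContinuousConstSMul (FreeGroup (Fin 3)) Z) (f : Boundary (basis 3) → Z),
      IsConvergenceAction (FreeGroup (Fin 3)) Z ∧
      3 ≤ (limitSet (FreeGroup (Fin 3)) Z).encard ∧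
      Continuous f ∧ (∀ g p, f (bsmul (closure_basis 3) g p) = g • f p) ∧
      (∀ a : ℝ, 1 < a → ∃ m : MetricSpace (Boundary (basis 3)),
        IsVisual (basis 3) (⟨1⟩ : WordSp 3) a m) ∧
      (∀ (a : ℝ) (m : MetricSpace (Boundary (basis 3))), 1 < a →
        IsVisual (basis 3) (⟨1⟩ : WordSp 3) a m →
        0 < hausdorffDim m {p | f p ∈ limitSet (FreeGroup (Fin 3)) Z ∧
          ¬ IsConicalPt (FreeGroup (Fin 3)) (f p)}) ∧
      (∀ (X : Type) (_ : MetricSpace X) (_ : MulAction (FreeGroup (Fin 3)) X), IsTree X →
        IsGeometric (FreeGroup (Fin 3)) X → ∀ (x₀ : X) (a : ℝ)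
          (m : MetricSpace (Boundary (basis 3))), 1 < a → IsVisual (basis 3) x₀ a m →
        0 < hausdorffDim m {p | f p ∈ limitSet (FreeGroup (Fin 3)) Z ∧
          ¬ IsConicalPt (FreeGroup (Fin 3)) (f p)}) := by
  have hB : ∀ x, ptOf (redW_bw (a₀ := ((0, true) : Fin 3 × Bool)) (a₁ := (1, true)) rfl rfl x) ∈
      {p : Boundary (basis 3) | proj 2 (toBd p) ∈ limitSet (FreeGroup (Fin 3)) (Zp (2 : Fin 3)) ∧
          ¬ IsConicalPt (FreeGroup (Fin 3)) (proj 2 (toBd p))} := by
    intro x
    simp only [Set.mem_ofPred_eq, toBd_ptOf]
    refine nonconical (a := (0, true)) (b := (1, true)) (by decide) (by decide) (by decide)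
      (endOf_mem_Lam 2 _ fun n => ?_)
    unfold bw
    split_ifs <;> decide
  refine ⟨isHyperbolic_free, Zp (2 : Fin 3), inferInstance, inferInstance, inferInstance,
    inferInstance, inferInstance, fun p => proj 2 (toBd p), conv_Zp 2,
    three_points (a := (0, true)) (by decide), (continuous_proj 2).comp continuous_toBd, ?_,
    fun a ha => ⟨visMetric a ha, visMetric_isVisual a ha⟩, ?_, ?_⟩
  · intro g p
    change proj 2 (toBd (bsmul (closure_basis 3) g p)) = g • proj 2 (toBd p)
    rw [toBd_bsmul]
    rfl
  · intro a m ha hm
    exact vis_pos (a₀ := ((0, true) : Fin 3 × Bool)) (a₁ := (1, true)) rfl rfl (by decide)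
      (⟨1⟩ : WordSp 3) a ha m hm 1 0 one_pos (fun g h => by
        rw [gromovProd_word, one_mul, add_zero]) _ hB
  · intro X _ _ hX hG x₀ a m ha hm
    obtain ⟨K₀, K₁, hK₀, hK⟩ := tree_upper hX hG x₀
    exact vis_pos (a₀ := ((0, true) : Fin 3 × Bool)) (a₁ := (1, true)) rfl rfl (by decide)
      x₀ a ha m hm K₀ K₁ hK₀ hK _ hB

end Pool.Agent.Results.MP_9c739d_al.NonConicalPositiveDim
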